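import Pool.Agent.helper31.GPR.Spec

set_option autoImplicit false

namespace Pool.Agent.GPR

open Pool.Agent.helper25.QST

theorem BEX_z2 (s : ZMod 2) : s = 0 ∨ s = 1 := by
  revert s; decide

theorem BEX_fr {V : Type} [AddCommGroup V] [Module (ZMod 2) V] (x v : V) (hx : x ≠ 0)
    (hv : v ∉ Submodule.span (ZMod 2) {x}) :
    Module.finrank (ZMod 2) (Submodule.span (ZMod 2) {x, v}) = 2 := by
  have e : ({x, v} : Set V) = Set.range ![x, v] := by
    rw [Matrix.range_cons, Matrix.range_cons, Matrix.range_empty, Set.union_empty,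
      Set.singleton_union]
  have hli : LinearIndependent (ZMod 2) ![x, v] := by
    rw [LinearIndependent.pair_iff]
    intro s t h
    rcases BEX_z2 s with rfl | rfl <;> rcases BEX_z2 t with rfl | rfl
    · exact ⟨rfl, rfl⟩
    · rw [zero_smul, one_smul, zero_add] at h
      exact absurd (h ▸ Submodule.zero_mem _) hv
    · rw [zero_smul, one_smul, add_zero] at h
      exact absurd h hx
    · rw [one_smul, one_smul] at h
      exfalso
      apply hv
      have h2 : v = -x := by
        rw [eq_neg_iff_add_eq_zero, add_comm]; exact h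
      rw [h2]
      exact Submodule.neg_mem _ (Submodule.mem_span_singleton_self x)
  rw [e, finrank_span_eq_card hli, Fintype.card_fin]

theorem BEX : BEX_stmt := by
  intro V _ _ _ 𝓑 h x v hx hv
  obtain ⟨B, ⟨hB, hL⟩, hu⟩ := h.uniq _ (BEX_fr x v hx hv)
  refine ⟨B, hB, hL (Submodule.subset_span (by simp)), hL (Submodule.subset_span (by simp)), ?_⟩
  intro B' hB' hx' hv'
  apply hu
  refine ⟨hB', ?_⟩
  rw [Submodule.span_le]
  intro y hy
  rcases hy with rfl | hy
  · exact hx'
  · rw [Set.mem_singleton_iff] at hy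
    rw [hy]; exact hv'

end Pool.Agent.GPR
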